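import Pool.Agent.MP_cce4c9_lc.H33.DiscCore
import Pool.Agent.MP_cce4c9_lc.H7.BaseA

/-! The rows DISC and ADJ. -/

set_option autoImplicit false

open WithZero Finsupp Module
open scoped IntermediateField

namespace Pool.Agent.MP_cce4c9_lc.H33

open Pool.Agent.MP_cce4c9_lc.H87 Pool.Agent.MP_cce4c9_lc.H7

theorem disc : StmtDISC := fun _ _ _ _ _ _ _ _ _ _ _ _ R hK hF ξ _ hs =>
  ⟨disc1 R (fins hK) (fins hF) (res hF) ξ hs, disc2 R (fins hK) (fins hF) (res hF) ξ hs⟩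

section Adj

variable {k K Ω : Type} [Field k] [Field K] [Algebra k K] [Field Ω] [Algebra k Ω]

theorem exists_kp [IsAlgClosed k] (hC : StmtCHEV) : Nonempty (KP k Ω) := by
  obtain ⟨P, -⟩ := hC k Ω ((algebraMap k Ω).prod (RingHom.id k)).range (fun c => ⟨c, rfl⟩)
    fun c ⟨d, hd⟩ => by
      have h1 : algebraMap k Ω d = 0 := congrArg Prod.fst hd
      have h2 : d = c := congrArg Prod.snd hd
      rw [← h2]
      exact (map_eq_zero _).1 h1
  exact ⟨P⟩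

variable (B : BCK k K Ω)

theorem pl_ev' (η : K →ₐ[k] Ω) (h : K) : (B.pl η).ev (algebraMap K B.F h) = η h :=
  Place.ev_eq _ (B.pl_val η h)

theorem pl_triv' (η : K →ₐ[k] Ω) {h : K} (h0 : h ≠ 0) :
    (B.pl η).val (algebraMap K B.F h) = 1 :=
  Place.eq_one_of_sub _ (B.pl_val η h) ((map_ne_zero η).2 h0)

theorem pl_inj' {η η' : K →ₐ[k] Ω} (e : B.pl η = B.pl η') : η = η' := by
  ext h
  rw [← pl_ev' B η h, e, pl_ev']

theorem pl_ne_io' (η : K →ₐ[k] Ω) (z : Place k K) : B.pl η ≠ B.io z := fun e => by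
  obtain ⟨π, hπ⟩ := z.exists_unif
  have h1 := pl_triv' B η (z.unif_ne hπ)
  rw [e, B.io_val, hπ, ← exp_zero, exp_inj] at h1
  omega

variable [IsAlgClosed Ω] [Algebra K Ω] [IsScalarTower k K Ω] {B} {l : ℕ} {ζ : k}
  {e : VV k K l →ₗ[ZMod l] VV k K l →ₗ[ZMod l] ZMod l} {x₀ : Place k K}

/-- Multiplication of the function of the cocycle by the `l`-th power of a rational function. -/
noncomputable def twist (C : Coc B ζ e x₀) (ψ : B.F) (h0 : ψ ≠ 0)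
    (hψ : ∀ τ : Ω ≃ₐ[K] Ω, (B.act (τ.restrictScalars k)).1 ψ = ψ) : Coc B ζ e x₀ where
  Φ := C.Φ * ψ ^ l
  E := C.E + dv Ω ψ
  c := C.c
  ne := mul_ne_zero C.ne (pow_ne_zero _ h0)
  div := by
    rw [smul_add, ← add_assoc, ← C.div]
    ext w
    rw [Finsupp.add_apply, Finsupp.smul_apply, dv_apply (fins B.ff _), dv_apply (fins B.ff _),
      dv_apply (fins B.ff _), w.ord_mul' C.ne (pow_ne_zero _ h0), w.ord_pow, smul_eq_mul]
  coc := fun τ f D hf => by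
    obtain ⟨χ, hχ⟩ := C.coc τ f D hf
    refine ⟨χ, ?_⟩
    rw [map_mul, map_pow, hχ, hψ]
    ring
  fix := fun τ hτ => by rw [map_mul, map_pow, C.fix τ hτ, hψ]
  finr := C.finr
  kum := C.kum
  surj := C.surj
  fin := C.fin
  nd := C.nd

end Adj

theorem adj (hC : StmtCHEV) (hR : StmtRED) (hD : StmtDISC) : StmtADJ := by
  intro k K Ω _ _ _ _ _ _ _ _ _ B l _ ζ e x₀ x₁ φ hK hx hφ C
  obtain ⟨P⟩ := exists_kp (k := k) (Ω := Ω) hC
  obtain ⟨R⟩ := hR k K Ω B.toBCD P hK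
  set ξ := B.pl ((eta k K Ω).comp φ) with hξ
  obtain ⟨s, -, -, hs⟩ := (R.rp ξ).exists_ord 1
  obtain ⟨π, hπ0, -, hπ⟩ := x₁.exists_ord 1
  have h1 := (hD k K Ω B.toBCD P R hK B.ff ξ s hs).1 ξ rfl
  rw [if_pos rfl, hξ, pl_ev', ← hξ] at h1
  set ψ₁ := algebraMap K B.F s - algebraMap Ω B.F (((eta k K Ω).comp φ) s) with hψ₁
  have h10 : ψ₁ ≠ 0 := ne_of_ord_one h1
  have h20 : algebraMap K B.F π ≠ 0 := (map_ne_zero _).2 hπ0
  have h2 : ξ.ord (algebraMap K B.F π) = 0 := ξ.ord_of_val_one (pl_triv' B _ hπ0)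
  have h3 : (B.io x₁).ord (algebraMap K B.F π) = 1 := by
    rw [Place.ord, B.io_val]
    exact hπ
  have hne : ξ ≠ B.pl (eta k K Ω) := fun e => hφ (by
    ext h
    have := DFunLike.congr_fun (pl_inj' B e) h
    exact (eta k K Ω).injective this)
  have h4 : ξ.ord C.Φ = l * C.E ξ := by
    rw [← dv_apply (fins B.ff _), C.div, Finsupp.add_apply, Finsupp.sub_apply,
      Finsupp.single_eq_of_ne hne, Finsupp.single_eq_of_ne (pl_ne_io' B _ _), Finsupp.smul_apply]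
    simp
  have h5 : (B.io x₁).ord C.Φ = l * C.E (B.io x₁) := by
    rw [← dv_apply (fins B.ff _), C.div, Finsupp.add_apply, Finsupp.sub_apply,
      Finsupp.single_eq_of_ne (pl_ne_io' B _ _).symm,
      Finsupp.single_eq_of_ne fun e => hx (B.io_inj e).symm, Finsupp.smul_apply]
    simp
  set a : ℤ := -C.E ξ with ha
  set b : ℤ := -C.E (B.io x₁) - a * (B.io x₁).ord ψ₁ with hb
  have h0 : ψ₁ ^ a * algebraMap K B.F π ^ b ≠ 0 :=
    mul_ne_zero (zpow_ne_zero _ h10) (zpow_ne_zero _ h20)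
  have hfix : ∀ τ : Ω ≃ₐ[K] Ω, (B.act (τ.restrictScalars k)).1 (ψ₁ ^ a * algebraMap K B.F π ^ b) =
      ψ₁ ^ a * algebraMap K B.F π ^ b := fun τ => by
    have : τ.restrictScalars k (((eta k K Ω).comp φ) s) = ((eta k K Ω).comp φ) s :=
      τ.commutes (φ s)
    rw [map_mul, map_zpow₀, map_zpow₀, B.act_K, hψ₁, map_sub, B.act_K, B.act_Ω, this]
  have hord : ∀ w : Place Ω B.F, w.ord (C.Φ * (ψ₁ ^ a * algebraMap K B.F π ^ b) ^ l) =
      w.ord C.Φ + l * (a * w.ord ψ₁ + b * w.ord (algebraMap K B.F π)) := fun w => by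
    rw [w.ord_mul' C.ne (pow_ne_zero _ h0), w.ord_pow,
      w.ord_mul' (zpow_ne_zero _ h10) (zpow_ne_zero _ h20), w.ord_zpow, w.ord_zpow]
  have hn : C.Φ * (ψ₁ ^ a * algebraMap K B.F π ^ b) ^ l ≠ 0 := mul_ne_zero C.ne (pow_ne_zero _ h0)
  refine ⟨twist C _ h0 hfix, (ξ.val_one_iff (ξ.val_ne hn)).2 ?_,
    ((B.io x₁).val_one_iff ((B.io x₁).val_ne hn)).2 ?_⟩
  · rw [hord, h4, h1, h2, ha]
    ring
  · rw [hord, h5, h3, hb]
    ring

end Pool.Agent.MP_cce4c9_lc.H33
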