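import Pool.Agent.MP_cce4c9_lc.H7.Spec

/-! Residue discs: the core of the rows DISC and ADJ. -/

set_option autoImplicit false

open WithZero Finsupp Module
open scoped IntermediateField

namespace Pool.Agent.MP_cce4c9_lc.H33

open Pool.Agent.MP_cce4c9_lc.H87 Pool.Agent.MP_cce4c9_lc.H7

open Classical in
theorem mapDomain_eq_sum {α β : Type} (f : α → β) (D : α →₀ ℤ) (z : β) :
    D.mapDomain f z = ∑ w ∈ D.support with f w = z, D w := by
  rw [Finsupp.mapDomain, Finsupp.sum_apply, Finsupp.sum, Finset.sum_filter]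
  refine Finset.sum_congr rfl fun w _ => ?_
  rw [Finsupp.single_apply]

/-- All orders of all elements have finite support. -/
def Fins (k K : Type) [Field k] [Field K] [Algebra k K] : Prop :=
  ∀ h : K, (Function.support fun v : Place k K => v.ord h).Finite

theorem Place.ord_prod_zpow {k F ι : Type} [Field k] [Field F] [Algebra k F] (v : Place k F)
    (S : Finset ι) (f : ι → F) (m : ι → ℤ) (hf : ∀ i ∈ S, f i ≠ 0) :
    v.ord (∏ i ∈ S, f i ^ m i) = ∑ i ∈ S, m i * v.ord (f i) := by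
  classical
  induction S using Finset.induction_on with
  | empty => simp
  | insert a S ha ih =>
    have h1 : ∀ i ∈ S, f i ≠ 0 := fun i hi => hf i (Finset.mem_insert_of_mem hi)
    have h2 : (∏ i ∈ S, f i ^ m i) ≠ 0 :=
      Finset.prod_ne_zero_iff.2 fun i hi => zpow_ne_zero _ (h1 i hi)
    rw [Finset.prod_insert ha, Finset.sum_insert ha,
      v.ord_mul (v.val_ne (zpow_ne_zero _ (hf a (Finset.mem_insert_self _ _)))) (v.val_ne h2),
      v.ord_zpow, ih h1]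

theorem Place.ev_prod_zpow {k F ι : Type} [Field k] [Field F] [Algebra k F] {v : Place k F}
    (H : v.Res) (S : Finset ι) (f : ι → F) (m : ι → ℤ) (hf : ∀ i ∈ S, v.val (f i) = 1) :
    v.val (∏ i ∈ S, f i ^ m i) = 1 ∧ v.ev (∏ i ∈ S, f i ^ m i) = ∏ i ∈ S, v.ev (f i) ^ m i := by
  classical
  induction S using Finset.induction_on with
  | empty => simp
  | insert a S ha ih =>
    obtain ⟨h1, h2⟩ := ih fun i hi => hf i (Finset.mem_insert_of_mem hi)
    have h3 := hf a (Finset.mem_insert_self _ _)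
    have h4 : v.val (f a ^ m a) = 1 := by rw [map_zpow₀, h3, one_zpow]
    rw [Finset.prod_insert ha, Finset.prod_insert ha, H.ev_mul h4.le h1.le, H.ev_zpow h3, h2,
      map_mul, h4, h1, one_mul]
    exact ⟨rfl, rfl⟩

section Disc

variable {k K Ω : Type} [Field k] [Field K] [Algebra k K] [Field Ω] [Algebra k Ω]
  {B : BCD k K Ω} {P : KP k Ω} (R : Red B P)

theorem ne_of_red {Φ : R.G} (h : R.red Φ ≠ 0) : (Φ : B.F) ≠ 0 := fun e =>
  h (by rw [show Φ = 0 from Subtype.ext e, map_zero])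

theorem val_of_red {Φ : R.G} (h : R.red Φ ≠ 0) : R.G.valuation (Φ : B.F) = 1 :=
  le_antisymm (R.G.valuation_le_one Φ) (not_lt.1 fun e => h ((R.ker Φ).2 e))

theorem red_of_val {Φ : R.G} (h : R.G.valuation (Φ : B.F) = 1) : R.red Φ ≠ 0 := fun e =>
  absurd ((R.ker Φ).1 e) (by rw [h]; exact lt_irrefl _)

open Classical in
/-- The order of a reduction is the sum of the orders in the disc. -/
theorem ord_red (hK : Fins k K) (hF : Fins Ω B.F) (Φ : R.G) (h : R.red Φ ≠ 0) (z : Place k K) :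
    z.ord (R.red Φ) = ∑ w ∈ (dv Ω (Φ : B.F)).support with R.rp w = z, w.ord (Φ : B.F) := by
  rw [← dv_apply (hK _), R.rt Φ h, mapDomain_eq_sum]
  exact Finset.sum_congr rfl fun w _ => dv_apply (hF _) w

theorem ord_le_red (hK : Fins k K) (hF : Fins Ω B.F) (Φ : R.G) (h : R.red Φ ≠ 0)
    (z : Place k K) (h0 : ∀ w, R.rp w = z → w.val (Φ : B.F) ≤ 1) (T : Finset (Place Ω B.F))
    (hT : ∀ w ∈ T, R.rp w = z) : ∑ w ∈ T, w.ord (Φ : B.F) ≤ z.ord (R.red Φ) := by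
  classical
  have hn : ∀ w, R.rp w = z → 0 ≤ w.ord (Φ : B.F) := fun w hw =>
    (w.val_le_one (w.val_ne (ne_of_red R h))).1 (h0 w hw)
  rw [ord_red R hK hF Φ h z, ← Finset.sum_filter_ne_zero T]
  refine Finset.sum_le_sum_of_subset_of_nonneg (fun w hw => ?_) fun w hw _ =>
    hn w (Finset.mem_filter.1 hw).2
  obtain ⟨h1, h2⟩ := Finset.mem_filter.1 hw
  refine Finset.mem_filter.2 ⟨Finsupp.mem_support_iff.2 ?_, hT w h1⟩
  rwa [dv_apply (hF _)]

theorem ord_red_zero (hK : Fins k K) (hF : Fins Ω B.F) (Φ : R.G) (h : R.red Φ ≠ 0)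
    (z : Place k K) (h0 : ∀ w, R.rp w = z → w.ord (Φ : B.F) = 0) : z.ord (R.red Φ) = 0 := by
  classical
  rw [ord_red R hK hF Φ h z]
  exact Finset.sum_eq_zero fun w hw => h0 w (Finset.mem_filter.1 hw).2

/-- A constant of the valuation ring, as an element of the Gauss ring. -/
def cG (a : P.O) : R.G := ⟨algebraMap Ω B.F a, (R.memΩ a).2 a.2⟩

theorem red_cG (a : P.O) : R.red (cG R a) = algebraMap k K (P.ρ a) := R.redΩ a

theorem coe_cG (a : P.O) : (cG R a : B.F) = algebraMap Ω B.F a := rfl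

theorem ne_of_ord_one {z : Place k K} {s : K} (hs : z.ord s = 1) : s ≠ 0 := fun e => by
  rw [e, z.ord_zero] at hs
  exact zero_ne_one hs

theorem lt_of_ord_one {z : Place k K} {s : K} (hs : z.ord s = 1) : z.val s < 1 :=
  (z.val_lt_one (z.val_ne (ne_of_ord_one hs))).2 (by rw [hs]; exact one_pos)

/-- The coordinate of a disc, translated so that it vanishes at `ξ`. -/
theorem exists_coord (ξ : Place Ω B.F) {s : K} (hs : (R.rp ξ).ord s = 1) :
    ∃ Φ : R.G, (Φ : B.F) = algebraMap K B.F s - algebraMap Ω B.F (ξ.ev (algebraMap K B.F s)) ∧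
      R.red Φ = s := by
  obtain ⟨ha, hρ⟩ := R.rp_ev ξ s (lt_of_ord_one hs).le
  refine ⟨⟨_, R.memK s⟩ - cG R ⟨_, ha⟩, rfl, ?_⟩
  rw [map_sub, R.redK, red_cG, hρ, (R.rp ξ).ev_of_lt (lt_of_ord_one hs), map_zero, sub_zero]

open Classical in
theorem disc1 (hK : Fins k K) (hF : Fins Ω B.F) (hr : ∀ w : Place Ω B.F, w.Res)
    (ξ : Place Ω B.F) {s : K} (hs : (R.rp ξ).ord s = 1) (w : Place Ω B.F)
    (hw : R.rp w = R.rp ξ) :
    w.ord (algebraMap K B.F s - algebraMap Ω B.F (ξ.ev (algebraMap K B.F s))) =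
      if w = ξ then 1 else 0 := by
  obtain ⟨Φ, hΦ, hred⟩ := exists_coord R ξ hs
  have h0 : R.red Φ ≠ 0 := hred ▸ ne_of_ord_one hs
  have hle : ∀ w, R.rp w = R.rp ξ → w.val (algebraMap K B.F s) ≤ 1 := fun w hw =>
    ((R.rp_iff w s).1 (hw ▸ (lt_of_ord_one hs).le)).1
  have h1 : ∀ w, R.rp w = R.rp ξ → w.val (Φ : B.F) ≤ 1 := fun w hw => by
    rw [hΦ]
    exact (w.val.map_sub _ _).trans (max_le (hle w hw) (w.const_le _))
  have h2 : 0 < ξ.ord (Φ : B.F) := by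
    rw [← ξ.val_lt_one (ξ.val_ne (ne_of_red R h0)), hΦ]
    exact (hr ξ).ev_spec (hle ξ rfl)
  have h3 : 0 ≤ w.ord (Φ : B.F) := (w.val_le_one (w.val_ne (ne_of_red R h0))).1 (h1 w hw)
  rw [← hΦ]
  split_ifs with h
  · have := ord_le_red R hK hF Φ h0 _ h1 {ξ} (by simp)
    rw [Finset.sum_singleton, hred, hs] at this
    rw [h]
    omega
  · have := ord_le_red R hK hF Φ h0 _ h1 {w, ξ} (by simp [hw])
    rw [Finset.sum_pair h, hred, hs] at this
    omega

/-- A unit of the Gauss ring without zeros and poles in a disc has unit values there. -/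
theorem val_ev_one (hK : Fins k K) (hF : Fins Ω B.F) (hr : ∀ w : Place Ω B.F, w.Res)
    (ξ : Place Ω B.F) (Ψ : R.G) (h : R.red Ψ ≠ 0)
    (h0 : ∀ w, R.rp w = R.rp ξ → w.ord (Ψ : B.F) = 0) :
    P.O.valuation (ξ.ev (Ψ : B.F)) = 1 := by
  have hv : ∀ w, R.rp w = R.rp ξ → w.val (Ψ : B.F) = 1 := fun w hw =>
    (w.val_one_iff (w.val_ne (ne_of_red R h))).2 (h0 w hw)
  have hc : ξ.ev (Ψ : B.F) ≠ 0 := (hr ξ).ev_ne_zero (hv ξ rfl)
  have hsp := (hr ξ).ev_spec (hv ξ rfl).le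
  set c := ξ.ev (Ψ : B.F)
  have key : ∀ Θ : R.G, R.red Θ ≠ 0 → (∀ w, R.rp w = R.rp ξ → w.val (Θ : B.F) ≤ 1) →
      ξ.val (Θ : B.F) < 1 → (R.rp ξ).ord (R.red Θ) ≠ 0 := fun Θ h1 h2 h3 => by
    have := ord_le_red R hK hF Θ h1 _ h2 {ξ} (by simp)
    rw [Finset.sum_singleton] at this
    have h4 := (ξ.val_lt_one (ξ.val_ne (ne_of_red R h1))).1 h3
    omega
  rcases lt_trichotomy (P.O.valuation c) 1 with hlt | heq | hgt
  · have hcO : c ∈ P.O := (P.O.valuation_le_one_iff c).1 hlt.le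
    have hρ : P.ρ ⟨c, hcO⟩ = 0 := (P.ker _).2 hlt
    have hred : R.red (Ψ - cG R ⟨c, hcO⟩) = R.red Ψ := by
      rw [map_sub, red_cG, hρ, map_zero, sub_zero]
    refine absurd ?_ (key (Ψ - cG R ⟨c, hcO⟩) (hred ▸ h) (fun w hw => ?_) hsp)
    · rw [hred]
      exact ord_red_zero R hK hF Ψ h _ h0
    · exact (w.val.map_sub _ _).trans (max_le (hv w hw).le (w.const_le _))
  · exact heq
  · have hlt : P.O.valuation c⁻¹ < 1 := by
      rw [map_inv₀]
      exact inv_lt_one_of_one_lt₀ hgt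
    have hcO : c⁻¹ ∈ P.O := (P.O.valuation_le_one_iff _).1 hlt.le
    have hρ : P.ρ ⟨c⁻¹, hcO⟩ = 0 := (P.ker _).2 hlt
    have hred : R.red (Ψ * cG R ⟨c⁻¹, hcO⟩ - 1) = -1 := by
      rw [map_sub, map_mul, red_cG, hρ, map_zero, mul_zero, map_one, zero_sub]
    have hcoe : ((Ψ * cG R ⟨c⁻¹, hcO⟩ - 1 : R.G) : B.F) =
        (Ψ - algebraMap Ω B.F c) * algebraMap Ω B.F c⁻¹ := by
      rw [sub_mul, ← map_mul, mul_inv_cancel₀ hc, map_one]
      rfl
    refine absurd ?_ (key (Ψ * cG R ⟨c⁻¹, hcO⟩ - 1) (by rw [hred]; simp) (fun w hw => ?_) ?_)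
    · rw [hred, Place.ord_neg, Place.ord_one]
    · rw [hcoe, map_mul, w.triv _ (inv_ne_zero hc), mul_one]
      exact (w.val.map_sub _ _).trans (max_le (hv w hw).le (w.const_le _))
    · rw [hcoe, map_mul, ξ.triv _ (inv_ne_zero hc), mul_one]
      exact hsp

open Classical in
theorem disc2 (hK : Fins k K) (hF : Fins Ω B.F) (hr : ∀ w : Place Ω B.F, w.Res)
    (ξ : Place Ω B.F) {s : K} (hs : (R.rp ξ).ord s = 1) (Φ : R.G) (h : R.red Φ ≠ 0)
    (h1 : ξ.val (Φ : B.F) = 1) :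
    P.O.valuation (ξ.ev (Φ : B.F)) =
      ∏ w ∈ (dv Ω (Φ : B.F)).support with R.rp w = R.rp ξ,
        P.O.valuation (ξ.ev (algebraMap K B.F s) - w.ev (algebraMap K B.F s)) ^
          w.ord (Φ : B.F) := by
  set S := (dv Ω (Φ : B.F)).support.filter fun w => R.rp w = R.rp ξ with hS
  set f : Place Ω B.F → B.F := fun w =>
    algebraMap K B.F s - algebraMap Ω B.F (w.ev (algebraMap K B.F s)) with hf
  have hmem : ∀ w, w ∈ S ↔ w.ord (Φ : B.F) ≠ 0 ∧ R.rp w = R.rp ξ := fun w => by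
    rw [hS, Finset.mem_filter, Finsupp.mem_support_iff, dv_apply (hF _)]
  have hfv : ∀ w ∈ S, R.G.valuation (f w) = 1 := fun w hw => by
    obtain ⟨Θ, hΘ, hred⟩ := exists_coord R w (s := s) (by rw [((hmem w).1 hw).2, hs])
    have := val_of_red R (Φ := Θ) (hred ▸ ne_of_ord_one hs)
    rwa [hΘ] at this
  have hf0 : ∀ w ∈ S, f w ≠ 0 := fun w hw e => by
    have := hfv w hw
    rw [e, map_zero] at this
    exact zero_ne_one this
  have hfo : ∀ w ∈ S, ∀ w', R.rp w' = R.rp ξ → w'.ord (f w) = if w' = w then 1 else 0 :=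
    fun w hw w' hw' => disc1 R hK hF hr w (by rw [((hmem w).1 hw).2, hs]) w'
      (by rw [hw', ((hmem w).1 hw).2])
  set Pr : B.F := ∏ w ∈ S, f w ^ w.ord (Φ : B.F) with hPr
  have hP0 : Pr ≠ 0 := Finset.prod_ne_zero_iff.2 fun w hw => zpow_ne_zero _ (hf0 w hw)
  have hPv : R.G.valuation Pr = 1 := by
    rw [hPr, map_prod]
    exact Finset.prod_eq_one fun w hw => by rw [map_zpow₀, hfv w hw, one_zpow]
  have hΨv : R.G.valuation ((Φ : B.F) * Pr⁻¹) = 1 := by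
    rw [map_mul, map_inv₀, hPv, val_of_red R h, inv_one, mul_one]
  have hΨG : (Φ : B.F) * Pr⁻¹ ∈ R.G := (R.G.valuation_le_one_iff _).1 hΨv.le
  have hΨo : ∀ w, R.rp w = R.rp ξ → w.ord ((Φ : B.F) * Pr⁻¹) = 0 := fun w' hw' => by
    rw [w'.ord_mul (w'.val_ne (ne_of_red R h)) (w'.val_ne (inv_ne_zero hP0)), w'.ord_inv, hPr,
      Place.ord_prod_zpow w' S f _ hf0,
      Finset.sum_congr rfl fun w hw => by rw [hfo w hw w' hw', mul_ite, mul_one, mul_zero],
      Finset.sum_ite_eq]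
    split_ifs with hw
    · exact add_neg_cancel _
    · by_contra e
      exact hw ((hmem w').2 ⟨by simpa using e, hw'⟩)
  have hone := val_ev_one R hK hF hr ξ ⟨_, hΨG⟩ (red_of_val R hΨv) hΨo
  have hξS : ξ ∉ S := fun e => ((hmem ξ).1 e).1 (ξ.ord_of_val_one h1)
  have hfξ : ∀ w ∈ S, ξ.val (f w) = 1 := fun w hw => by
    rw [ξ.val_one_iff (ξ.val_ne (hf0 w hw)), hfo w hw ξ rfl, if_neg fun e : ξ = w => hξS (e ▸ hw)]
  obtain ⟨hq1, hq2⟩ := Place.ev_prod_zpow (hr ξ) S f (fun w => w.ord (Φ : B.F)) hfξ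
  have hΨ1 : ξ.val ((Φ : B.F) * Pr⁻¹) = 1 := by
    rw [map_mul, map_inv₀, hPr, hq1, h1, inv_one, mul_one]
  have hsle : ξ.val (algebraMap K B.F s) ≤ 1 := ((R.rp_iff ξ s).1 (lt_of_ord_one hs).le).1
  have hev : ξ.ev (Φ : B.F) = ξ.ev ((Φ : B.F) * Pr⁻¹) * ξ.ev Pr := by
    rw [← (hr ξ).ev_mul hΨ1.le hq1.le, inv_mul_cancel_right₀ hP0]
  rw [hev, map_mul, hone, one_mul, hPr, hq2, map_prod]
  refine Finset.prod_congr rfl fun w _ => ?_
  rw [map_zpow₀, hf, (hr ξ).ev_sub hsle (ξ.const_le _), ξ.ev_const]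

end Disc

end Pool.Agent.MP_cce4c9_lc.H33
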